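import Pool.Agent.Y262.QE.Main
import Pool.Agent.Y165.QE.Diag
import Pool.Agent.Y618.QE.Cpt
import Pool.Agent.Y161.QE.Sp
import Pool.Agent.Y592.QE.Spec
import Pool.Agent.Y726.QE.Der
import Pool.Agent.Y177.QE.QM
import Pool.Agent.Y850.QE.One
import Pool.Agent.Y936.QE.Meas
import Pool.Agent.Y421.QE.Csn
import Pool.Agent.Y785.QE.Reg
import Pool.Agent.Y850.QE.Quad
import Pool.Agent.Y362.QE.Lim
import Pool.Agent.Y850.QE.Bmp
import Pool.Agent.Y421.QE.Par
import Pool.Agent.Y532.QE.Par2
import Pool.Agent.Y365.QE.Ibp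
import Pool.Agent.Y540.QE.Sub
import Pool.Agent.Y274.QE.Fin
import Pool.Agent.Y960.QE.Int
import Pool.Agent.Y708.QE.Gr
import Pool.Agent.Y93.QE.W1
import Pool.Agent.Y469.QE.Weyl
import Pool.Agent.Y492.QE.Conf
import Pool.Agent.Y273.QE.Sig
import Pool.Agent.Y905.QE.Cyi
import Pool.Agent.Y480.QE.Cyf
import Pool.Agent.Y252.QE.Cyd
import Pool.Agent.Y469.QE.Mul
import Pool.Agent.Y490.QE.Den
import Pool.Agent.Y986.QE.Eig
import Pool.Agent.Y363.QE.Bs
import Pool.Agent.Y237.QE.Cyl
import Pool.Agent.Y412.QE.Core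
import Pool.Agent.Y291.QE.Pack

/-!
# Project QE: assembly

The proofs of the parts are by helper165 (diagonalization), helper618 (compactness), helper161
(renorming), helper592 (enumeration, minimax, comparison, counting), helper726 (derivative),
helper177 (quasimodes), helper850 (one function, squares, bump), helper936 (measure argument),
helper421 (fundamental solutions, Parseval), helper785 (regularity), helper362 (limits), helper532
(Parseval on the cylinder), helper365 (integration by parts), helper540 (Poincaré), helper274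
(area), helper960 (integration in charts), helper708 (gradient), helper93 and helper469 (Weyl bound,
multiplication), helper492 (conformal change), helper273 (involution), helper905, helper480 and
helper252 (cylinder), helper490 (density), helper986 (eigenfunctions), helper363 (forms), helper237
(frequencies), helper412 (abstract theorem), helper291 (form domain of the surface).
-/

set_option autoImplicit false

open Set Filter Topology MeasureTheory
open scoped Real ContDiff ENNReal

noncomputable section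

namespace Pool.Agent.Y262.QE

theorem tBs : StBs := Pool.Agent.Y363.QE.bs Pool.Agent.Y469.QE.mul Pool.Agent.Y850.QE.bmp

theorem tSp : StSp := Pool.Agent.Y161.QE.sp Pool.Agent.Y618.QE.cpt
  (Pool.Agent.Y165.QE.diag Pool.Agent.Y592.QE.enum)

theorem tMeas : StMeas := Pool.Agent.Y936.QE.meas Pool.Agent.Y850.QE.one

theorem tCyl : StCyl := Pool.Agent.Y237.QE.cyl (Pool.Agent.Y785.QE.reg Pool.Agent.Y421.QE.csn)
  (Pool.Agent.Y850.QE.quad Pool.Agent.Y421.QE.csn) (Pool.Agent.Y362.QE.lim Pool.Agent.Y421.QE.csn)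

theorem tCore : StCore := Pool.Agent.Y412.QE.core tBs tSp Pool.Agent.Y592.QE.mm
  Pool.Agent.Y592.QE.mon Pool.Agent.Y592.QE.cnt Pool.Agent.Y726.QE.der Pool.Agent.Y177.QE.qm tMeas
  Pool.Agent.Y850.QE.bmp tCyl

theorem tGr : StGr := Pool.Agent.Y708.QE.gradient

theorem tFin : StFin := Pool.Agent.Y274.QE.Fin.fin

theorem tInt : StInt := Pool.Agent.Y960.QE.int_chart

theorem tW : StW := Pool.Agent.Y469.QE.weyl tGr tFin
  (Pool.Agent.Y93.QE.w1 tInt tGr tFin (Pool.Agent.Y540.QE.sub Pool.Agent.Y540.QE.poin))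

theorem tCyi : StCyi := Pool.Agent.Y905.QE.cyi tInt

theorem tConf : StConf := Pool.Agent.Y492.QE.conf tInt

theorem tDen : StDen := Pool.Agent.Y262.QE.den tGr tFin

theorem tEig : StEig := Pool.Agent.Y986.QE.eig tGr tFin tConf (Pool.Agent.Y273.QE.sig tGr) tDen

theorem tPack : StPack := Pool.Agent.Y291.QE.pack tGr tFin tInt tW
  (Pool.Agent.Y532.QE.par2 Pool.Agent.Y421.QE.par) tCyi (Pool.Agent.Y480.QE.cyf tCyi)
  (Pool.Agent.Y252.QE.cyd tGr tFin tInt Pool.Agent.Y365.QE.ibp tCyi) tDen

end Pool.Agent.Y262.QE
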