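import Pool.Agent.Y262.QE.Def

/-!
# Project QE: statements

For almost every `s` the surface with the metric `exp (s h) g` has a sequence of eigenfunctions which
is not equidistributed in the surface.
-/

set_option autoImplicit false

open Set Filter Topology MeasureTheory
open scoped Real ContDiff ComplexConjugate

noncomputable section

namespace Pool.Agent.Y262.QE

/-! ### Abstract spectral theory -/

section forms

variable {H : Type} [NormedAddCommGroup H] [InnerProductSpace ℝ H]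

/-- a pair of symmetric forms: `a + b` is equivalent to the square of the norm, `b` is compact and has
infinite rank -/
structure Fm (a b : H →L[ℝ] H →L[ℝ] ℝ) : Prop where
  sa : ∀ u v, a u v = a v u
  sb : ∀ u v, b u v = b v u
  na : ∀ v, 0 ≤ a v v
  nb : ∀ v, 0 ≤ b v v
  co : ∃ c : ℝ, 0 < c ∧ ∀ v, c * ‖v‖ ^ 2 ≤ a v v + b v v
  cp : ∀ ε : ℝ, 0 < ε → ∃ (N : ℕ) (l : Fin N → H →L[ℝ] ℝ),
    ∀ v, b v v ≤ ε * ‖v‖ ^ 2 + ∑ i, (l i v) ^ 2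
  inf : ∃ e : ℕ → H, ∀ i j, b (e i) (e j) = if i = j then 1 else 0

/-- there is a subspace of dimension `j + 1` on which `a ≤ lam b` -/
def HD (a b : H →L[ℝ] H →L[ℝ] ℝ) (lam : ℝ) (j : ℕ) : Prop :=
  ∃ V : Submodule ℝ H, Module.finrank ℝ V = j + 1 ∧ ∀ v ∈ V, a v v ≤ lam * b v v

/-- the `j`-th eigenvalue, defined by the minimax principle -/
def Ev (a b : H →L[ℝ] H →L[ℝ] ℝ) (j : ℕ) : ℝ := sInf {lam | 0 ≤ lam ∧ HD a b lam j}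

/-- a complete orthonormal system of eigenvectors -/
structure Eg (a b : H →L[ℝ] H →L[ℝ] ℝ) (e : ℕ → H) (E : ℕ → ℝ) : Prop where
  orth : ∀ i j, b (e i) (e j) = if i = j then 1 else 0
  eig : ∀ j v, a (e j) v = E j * b (e j) v
  mono : Monotone E
  tt : Tendsto E atTop atTop
  sum : ∀ v, HasSum (fun j => (b v (e j)) ^ 2) (b v v)

/-- the quantitative form of compactness which gives the Weyl bound -/
def Wy (a b : H →L[ℝ] H →L[ℝ] ℝ) (C : ℝ) : Prop :=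
  ∀ ε : ℝ, 0 < ε → ε ≤ 1 → ∃ (N : ℕ) (l : Fin N → H →L[ℝ] ℝ), (N : ℝ) ≤ C / ε ∧
    ∀ v, b v v ≤ ε * a v v + ∑ i, (l i v) ^ 2

end forms

/-- monotone enumeration -/
def StEnum : Prop :=
  ∀ (ι : Type) [Infinite ι] (f : ι → ℝ), (∀ lam, {i | f i ≤ lam}.Finite) →
    ∃ g : ℕ ≃ ι, Monotone fun n => f (g n)

/-- a compact form is given by a compact operator -/
def StCpt : Prop :=
  ∀ (H : Type) [NormedAddCommGroup H] [InnerProductSpace ℝ H] [CompleteSpace H]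
    (b : H →L[ℝ] H →L[ℝ] ℝ), (∀ u v, b u v = b v u) → (∀ v, 0 ≤ b v v) →
    (∀ ε : ℝ, 0 < ε → ∃ (N : ℕ) (l : Fin N → H →L[ℝ] ℝ),
      ∀ v, b v v ≤ ε * ‖v‖ ^ 2 + ∑ i, (l i v) ^ 2) →
    ∃ T : H →L[ℝ] H, IsCompactOperator T ∧ (T : H →ₗ[ℝ] H).IsSymmetric ∧
      ∀ u v, inner ℝ (T u) v = b u v

/-- diagonalization of a positive compact operator of infinite rank -/
def StDiag : Prop :=
  ∀ (H : Type) [NormedAddCommGroup H] [InnerProductSpace ℝ H] [CompleteSpace H] (T : H →L[ℝ] H),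
    IsCompactOperator T → (T : H →ₗ[ℝ] H).IsSymmetric → (∀ v, 0 ≤ inner ℝ (T v) v) →
    (∃ e : ℕ → H, ∀ i j, inner ℝ (T (e i)) (e j) = if i = j then (1 : ℝ) else 0) →
    ∃ (g : ℕ → H) (τ : ℕ → ℝ), Orthonormal ℝ g ∧ (∀ j, 0 < τ j) ∧ Antitone τ ∧
      Tendsto τ atTop (𝓝 0) ∧ (∀ j, T (g j) = τ j • g j) ∧
      ∀ v, HasSum (fun j => τ j * (inner ℝ v (g j)) ^ 2) (inner ℝ (T v) v)

/-- the spectral theorem for a pair of forms -/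
def StSp : Prop :=
  ∀ (H : Type) [NormedAddCommGroup H] [InnerProductSpace ℝ H] [CompleteSpace H]
    (a b : H →L[ℝ] H →L[ℝ] ℝ), Fm a b → ∃ (e : ℕ → H) (E : ℕ → ℝ), Eg a b e E

/-- the minimax principle -/
def StMM : Prop :=
  ∀ (H : Type) [NormedAddCommGroup H] [InnerProductSpace ℝ H] (a b : H →L[ℝ] H →L[ℝ] ℝ), Fm a b →
    ∀ (e : ℕ → H) (E : ℕ → ℝ), Eg a b e E → ∀ j, Ev a b j = E j

/-- comparison of the eigenvalues of two forms -/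
def StMon : Prop :=
  ∀ (H : Type) [NormedAddCommGroup H] [InnerProductSpace ℝ H] (a b b' : H →L[ℝ] H →L[ℝ] ℝ),
    Fm a b → Fm a b' → ∀ (c : ℝ), 0 < c → (∀ v, b v v ≤ c * b' v v) →
    ∀ j, 0 ≤ Ev a b j ∧ Ev a b' j ≤ c * Ev a b j

/-- Weyl bound -/
def StCnt : Prop :=
  ∀ (H : Type) [NormedAddCommGroup H] [InnerProductSpace ℝ H] (a b : H →L[ℝ] H →L[ℝ] ℝ), Fm a b →
    ∀ C : ℝ, Wy a b C → ∀ (j : ℕ) (lam : ℝ), 1 ≤ lam → Ev a b j ≤ lam → (j + 1 : ℝ) ≤ 2 * C * lam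

/-- the one-sided derivative of an eigenvalue -/
def StDer : Prop :=
  ∀ (H : Type) [NormedAddCommGroup H] [InnerProductSpace ℝ H] (a b : H →L[ℝ] H →L[ℝ] ℝ), Fm a b →
    ∀ (e : ℕ → H) (E : ℕ → ℝ), Eg a b e E → ∀ (k : H →L[ℝ] H →L[ℝ] ℝ) (K : ℝ),
    (∀ u v, k u v = k v u) → (∀ v, 0 ≤ k v v ∧ k v v ≤ K * b v v) → ∀ (j : ℕ) (m m' : ℝ),
    0 ≤ m' → m' < m → (∀ v, (∀ w, a v w = E j * b v w) → m * b v v ≤ k v v) →
    ∃ δ : ℝ, 0 < δ ∧ ∀ τ : ℝ, 0 < τ → τ < δ → ∀ b' : H →L[ℝ] H →L[ℝ] ℝ,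
      (∀ v, b v v + τ * k v v ≤ b' v v) → Ev a b' j ≤ E j * (1 - m' * τ)

/-- a quasimode has a large component in the window if the window contains few eigenvalues -/
def StQM : Prop :=
  ∀ (H : Type) [NormedAddCommGroup H] [InnerProductSpace ℝ H] (a b : H →L[ℝ] H →L[ℝ] ℝ)
    (e : ℕ → H) (E : ℕ → ℝ), Eg a b e E → ∀ (x y : H) (ν q r : ℝ) (B : ℕ), 0 < r → 0 ≤ q →
    2 * q ≤ r → (∀ j, (E j - ν) * b x (e j) = b y (e j)) → b y y ≤ q ^ 2 * b x x → 0 < b x x →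
    {j | |E j - ν| ≤ r}.encard ≤ B →
    ∃ j, |E j - ν| ≤ r ∧ 3 / 4 * b x x ≤ B * (b x (e j)) ^ 2

/-! ### The measure of the set of parameters -/

/-- a decreasing function with derivative at most `- c` on `T` leaves an interval quickly -/
def StOne : Prop :=
  ∀ (f : ℝ → ℝ) (K : NNReal), LipschitzWith K f → Antitone f → ∀ c : ℝ, 0 < c →
    ∀ T : Set ℝ, MeasurableSet T → (∀ s ∈ T, deriv f s ≤ -c) → ∀ α β : ℝ, α ≤ β →
    volume (T ∩ f ⁻¹' Icc α β) ≤ ENNReal.ofReal ((β - α) / c)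

/-- infinitely many windows contain a bounded number of eigenvalues -/
def StMeas : Prop :=
  ∀ (E : ℕ → ℝ → ℝ) (K : ℝ), (∀ j s, 0 ≤ E j s) → (∀ j s t, s ≤ t → E j t ≤ E j s) →
    (∀ j s t, s ≤ t → E j s ≤ Real.exp (K * (t - s)) * E j t) →
    (∀ R : ℝ, ∃ C : ℝ, ∀ s, |s| ≤ R → ∀ (j : ℕ) (lam : ℝ), 1 ≤ lam → E j s ≤ lam →
      (j + 1 : ℝ) ≤ C * lam) →
    ∀ S : Set ℝ, (∀ s ∈ S, ∃ (c : ℝ) (J : ℕ), 0 < c ∧ ∀ j, J ≤ j → ∃ δ : ℝ, 0 < δ ∧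
      ∀ τ, 0 < τ → τ < δ → E j (s + τ) ≤ E j s * (1 - c * τ)) →
    ∀ r : ℝ, 0 < r → ∀ᵐ s : ℝ, s ∈ S →
      ∃ B : ℕ, ∃ᶠ n : ℕ in atTop, {j | |E j s - ((n : ℝ) + 1) ^ 2| ≤ r}.encard ≤ B

/-! ### The differential equation on the cylinder -/

/-- smooth functions with compact support in `(0, L)` -/
def Tst (L : ℝ) (η : ℝ → ℝ) : Prop :=
  ContDiff ℝ ∞ η ∧ HasCompactSupport η ∧ tsupport η ⊆ Ioo 0 L

/-- the solution of `p'' = - k p`, `p 0 = 1`, `p' 0 = 0` -/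
def cs (k x : ℝ) : ℝ := ∑' n : ℕ, (-k) ^ n * x ^ (2 * n) / (2 * n).factorial

/-- the solution of `p'' = - k p`, `p 0 = 0`, `p' 0 = 1` -/
def sn (k x : ℝ) : ℝ := ∑' n : ℕ, (-k) ^ n * x ^ (2 * n + 1) / (2 * n + 1).factorial

/-- properties of the two solutions -/
def StCS : Prop :=
  (Continuous fun q : ℝ × ℝ => cs q.1 q.2) ∧ (Continuous fun q : ℝ × ℝ => sn q.1 q.2) ∧
    (∀ k x, HasDerivAt (cs k) (-k * sn k x) x) ∧ (∀ k x, HasDerivAt (sn k) (cs k x) x) ∧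
    ∀ k, cs k 0 = 1 ∧ sn k 0 = 0

/-- weak solutions are classical -/
def StReg : Prop :=
  ∀ (L : ℝ), 0 < L → ∀ (k : ℝ) (p : ℝ → ℝ), MemLp p 2 (volume.restrict (Ioo 0 L)) →
    (∀ η, Tst L η → ∫ x in Ioo 0 L, (iteratedDeriv 2 η x + k * η x) * p x = 0) →
    ∃ α β : ℝ, ∀ᵐ x ∂volume.restrict (Ioo 0 L), p x = α * cs k x + β * sn k x

/-- the square of a solution satisfies `q''' + 4 k q' = 0` -/
def StQuad : Prop :=
  ∀ (L : ℝ) (k α β : ℝ) (η : ℝ → ℝ), Tst L η →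
    ∫ x in Ioo 0 L, (iteratedDeriv 3 η x + 4 * k * deriv η x) * (α * cs k x + β * sn k x) ^ 2 = 0

/-- the squares of a sequence of solutions do not tend to a constant -/
def StLim : Prop :=
  ∀ (L r C c : ℝ) (χ : ℝ → ℝ), 0 < L → 0 < c → Tst L χ → ∫ x in Ioo 0 L, χ x = 0 →
    ∀ (k α β : ℕ → ℝ), (∀ n, |k n| ≤ r) →
    (∀ n, ∫ x in Ioo 0 L, (α n * cs (k n) x + β n * sn (k n) x) ^ 2 ≤ C) →
    (∀ n, c ≤ |∫ x in Ioo 0 L, χ x * (α n * cs (k n) x + β n * sn (k n) x)|) →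
    ¬ ∀ η, Tst L η → Tendsto (fun n => ∫ x in Ioo 0 L,
      deriv η x * (α n * cs (k n) x + β n * sn (k n) x) ^ 2) atTop (𝓝 0)

/-! ### Fourier series on the cylinder -/

/-- the coefficient of `sin ((m + 1) y)` -/
def cf (U : ℂ → ℝ) (m : ℕ) (x : ℝ) : ℝ :=
  (Real.sqrt π)⁻¹ * ∫ y in Ioo (-π) π, Real.sin ((m + 1) * y) * U ⟨x, y⟩

/-- the function `η x sin ((m + 1) y)` -/
def Vf (η : ℝ → ℝ) (m : ℕ) (z : ℂ) : ℝ := η z.re * Real.sin ((m + 1) * z.im)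

/-- Parseval's formula for odd functions -/
def StPar : Prop :=
  ∀ f : ℝ → ℝ, MemLp f 2 (volume.restrict (Ioo (-π) π)) →
    (∀ᵐ y ∂volume.restrict (Ioo (-π) π), f (-y) = - f y) →
    HasSum (fun m : ℕ => ((Real.sqrt π)⁻¹ * ∫ y in Ioo (-π) π, Real.sin ((m + 1) * y) * f y) ^ 2)
      (∫ y in Ioo (-π) π, (f y) ^ 2)

/-- Parseval's formula on the cylinder -/
def StPar2 : Prop :=
  ∀ (L : ℝ) (U : ℂ → ℝ), 0 < L → MemLp U 2 (volume.restrict (Rec L (-π))) →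
    (∀ᵐ z ∂volume.restrict (Rec L (-π)), U (conj z) = - U z) →
    (∀ m, MemLp (cf U m) 2 (volume.restrict (Ioo 0 L))) ∧
    ∀ η : ℝ → ℝ, Measurable η → (∃ C, ∀ x, |η x| ≤ C) →
      (∀ m : ℕ, ∫ z in Rec L (-π), η z.re * Real.sin ((m + 1) * z.im) * U z =
        Real.sqrt π * ∫ x in Ioo 0 L, η x * cf U m x) ∧
      HasSum (fun m => ∫ x in Ioo 0 L, η x * (cf U m x) ^ 2)
        (∫ z in Rec L (-π), η z.re * (U z) ^ 2)

/-- integration by parts on the cylinder -/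
def StIBP : Prop :=
  ∀ (L : ℝ) (G : ℂ → ℝ) (η : ℝ → ℝ) (m : ℕ), 0 < L → ContDiffOn ℝ 1 G (Strip L) →
    (∀ z, G (z + 2 * π * Complex.I) = G z) → Tst L η →
    ∫ z in Rec L (-π), (fderiv ℝ (Vf η m) z 1 * fderiv ℝ G z 1 +
        fderiv ℝ (Vf η m) z Complex.I * fderiv ℝ G z Complex.I) =
      ∫ z in Rec L (-π), (-(iteratedDeriv 2 η z.re) + (m + 1) ^ 2 * η z.re) *
        Real.sin ((m + 1) * z.im) * G z

/-! ### Poincaré inequalities on squares -/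

/-- the closed square with the center `c` and the side `2 r` -/
def Sq (c : ℂ) (r : ℝ) : Set ℂ := {z | |z.re - c.re| ≤ r ∧ |z.im - c.im| ≤ r}

/-- Poincaré's inequality on a square -/
def StPoin : Prop :=
  ∀ (c : ℂ) (r : ℝ) (O : Set ℂ) (f : ℂ → ℝ), 0 < r → IsOpen O → Sq c r ⊆ O → ContDiffOn ℝ 1 f O →
    ∫ z in Sq c r, (f z) ^ 2 ≤ 4 * r ^ 2 * (∫ z in Sq c r, ‖fderiv ℝ f z‖ ^ 2) +
      (4 * r ^ 2)⁻¹ * (∫ z in Sq c r, f z) ^ 2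

/-- Poincaré's inequality on a square which is divided into `m²` small squares -/
def StSub : Prop :=
  ∀ (c : ℂ) (r : ℝ) (m : ℕ), 0 < r → 0 < m → ∃ κ : Fin (m * m) → ℂ → ℝ,
    (∀ i, Measurable (κ i)) ∧ (∀ i, ∃ C, ∀ z, |κ i z| ≤ C) ∧ (∀ i z, z ∉ Sq c r → κ i z = 0) ∧
    ∀ (O : Set ℂ) (f : ℂ → ℝ), IsOpen O → Sq c r ⊆ O → ContDiffOn ℝ 1 f O →
      ∫ z in Sq c r, (f z) ^ 2 ≤ 4 * r ^ 2 / m ^ 2 * (∫ z in Sq c r, ‖fderiv ℝ f z‖ ^ 2) +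
        ∑ i, (∫ z in Sq c r, f z * κ i z) ^ 2

/-! ### Analysis on the surface -/

/-- the area is finite and positive on open sets -/
def StFin : Prop :=
  ∀ (M : Type) [MetricSpace M] [CompactSpace M] [MeasurableSpace M] [BorelSpace M] (μ : Measure M)
    (D : Data M), D.IsSurf μ → IsFiniteMeasure μ ∧ ∀ O : Set M, IsOpen O → O.Nonempty → 0 < μ O

/-- integration in a chart -/
def StInt : Prop :=
  ∀ (M : Type) [MetricSpace M] [CompactSpace M] [MeasurableSpace M] [BorelSpace M] (μ : Measure M)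
    (D : Data M), D.IsSurf μ → ∀ (i : Fin D.N),
    (∀ g : M → ENNReal, Measurable g →
      ∫⁻ x in D.U i, g x ∂μ = ∫⁻ z in D.T i, g (D.ψ i z) * ENNReal.ofReal |(D.A i z).det|) ∧
    ∀ s : Set M, MeasurableSet s → s ⊆ D.U i → ∀ g : M → ℝ, AEStronglyMeasurable g μ →
      ∫ x in s, g x ∂μ = ∫ z in D.φ i '' s, g (D.ψ i z) * |(D.A i z).det|

/-- the gradient in charts -/
def StGr : Prop :=
  ∀ (M : Type) [MetricSpace M] [CompactSpace M] [MeasurableSpace M] [BorelSpace M] (μ : Measure M)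
    (D : Data M), D.IsSurf μ →
    (∀ F, D.C1 F → Continuous F ∧ Measurable (D.gr F) ∧ ∃ C : ℝ, ∀ x, ‖D.gr F x‖ ≤ C) ∧
    (∀ F G, D.C1 F → D.C1 G → ∀ i, ∀ x ∈ D.U i,
      inner ℝ (D.gr F x) (D.gr G x) = inner ℝ (D.gc i F x) (D.gc i G x)) ∧
    ∀ F G, D.C1 F → D.C1 G → ∀ α β : ℝ, D.C1 (fun x => α * F x + β * G x) ∧
      ∀ x, D.gr (fun x => α * F x + β * G x) x = α • D.gr F x + β • D.gr G x

/-- the local Weyl estimate -/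
def StW1 : Prop :=
  ∀ (M : Type) [MetricSpace M] [CompactSpace M] [MeasurableSpace M] [BorelSpace M] (μ : Measure M)
    (D : Data M), D.IsSurf μ → ∀ p : M, ∃ (O : Set M) (C : ℝ), IsOpen O ∧ p ∈ O ∧ 0 < C ∧
    ∀ m : ℕ, 0 < m → ∃ κ : Fin (m * m) → M → ℝ, (∀ i, MemLp (κ i) 2 μ) ∧
      ∀ F, D.C1 F → ∫ x in O, (F x) ^ 2 ∂μ ≤ C / m ^ 2 * (∫ x, ‖D.gr F x‖ ^ 2 ∂μ) +
        ∑ i, (∫ x, F x * κ i x ∂μ) ^ 2

/-- the Weyl estimate -/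
def StW : Prop :=
  ∀ (M : Type) [MetricSpace M] [CompactSpace M] [MeasurableSpace M] [BorelSpace M] (μ : Measure M)
    (D : Data M), D.IsSurf μ → ∃ C : ℝ, ∀ ε : ℝ, 0 < ε → ε ≤ 1 → ∃ (N : ℕ) (κ : Fin N → M → ℝ),
    (N : ℝ) ≤ C / ε ∧ (∀ i, MemLp (κ i) 2 μ) ∧
    ∀ F, D.C1 F → ∫ x, (F x) ^ 2 ∂μ ≤ ε * (∫ x, ‖D.gr F x‖ ^ 2 ∂μ) +
        ∑ i, (∫ x, F x * κ i x ∂μ) ^ 2

/-- the conformal change of a surface is a surface -/
def StConf : Prop :=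
  ∀ (M : Type) [MetricSpace M] [CompactSpace M] [MeasurableSpace M] [BorelSpace M] (μ : Measure M)
    (D : Data M), D.IsSurf μ → ∀ w : M → ℝ, Continuous w → (∀ x, 0 < w x) →
    (D.conf w).IsSurf (wm μ w) ∧
      ∀ F x, (D.conf w).gr F x = (Real.sqrt (w x))⁻¹ • D.gr F x

/-- the isometric involution -/
def StSig : Prop :=
  ∀ (M : Type) [MetricSpace M] [CompactSpace M] [MeasurableSpace M] [BorelSpace M] (μ : Measure M)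
    (D : Data M), D.IsSurf μ → ∀ (L : ℝ) (Φ : ℂ → M) (σ : M → M), D.IsCyl μ L Φ σ →
    (∀ F, D.C1 F → D.C1 fun x => F (σ x)) ∧
    ∀ F G, D.C1 F → D.C1 G → ∀ x, inner ℝ (D.gr (fun x => F (σ x)) x) (D.gr (fun x => G (σ x)) x) =
      inner ℝ (D.gr F (σ x)) (D.gr G (σ x))

/-- integration over the cylinder -/
def StCyi : Prop :=
  ∀ (M : Type) [MetricSpace M] [CompactSpace M] [MeasurableSpace M] [BorelSpace M] (μ : Measure M)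
    (D : Data M), D.IsSurf μ → ∀ (L : ℝ) (Φ : ℂ → M) (σ : M → M), D.IsCyl μ L Φ σ →
    ContinuousOn Φ (Strip L) ∧ IsOpen (Φ '' Strip L) ∧
      AEMeasurable Φ (volume.restrict (Rec L (-π))) ∧
      Measure.map Φ (volume.restrict (Rec L (-π))) = μ.restrict (Φ '' Strip L)

/-- functions on the cylinder -/
def StCyf : Prop :=
  ∀ (M : Type) [MetricSpace M] [CompactSpace M] [MeasurableSpace M] [BorelSpace M] (μ : Measure M)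
    (D : Data M), D.IsSurf μ → ∀ (L : ℝ) (Φ : ℂ → M) (σ : M → M), D.IsCyl μ L Φ σ →
    ∀ η : ℝ → ℝ, Tst L η →
    (∃ f : M → ℝ, Continuous f ∧ (∀ z ∈ Strip L, f (Φ z) = η z.re) ∧
      ∀ x, x ∉ Φ '' Strip L → f x = 0) ∧
    ∀ m : ℕ, ∃ V : M → ℝ, D.C1 V ∧ (∀ z ∈ Strip L, V (Φ z) = Vf η m z) ∧
      (∀ x, x ∉ Φ '' Strip L → V x = 0) ∧ ∀ x, V (σ x) = - V x

/-- the Dirichlet integral with a function on the cylinder -/
def StCyd : Prop :=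
  ∀ (M : Type) [MetricSpace M] [CompactSpace M] [MeasurableSpace M] [BorelSpace M] (μ : Measure M)
    (D : Data M), D.IsSurf μ → ∀ (L : ℝ) (Φ : ℂ → M) (σ : M → M), D.IsCyl μ L Φ σ →
    ∀ η : ℝ → ℝ, Tst L η → ∀ (m : ℕ) (V : M → ℝ), D.C1 V → (∀ z ∈ Strip L, V (Φ z) = Vf η m z) →
    (∀ x, x ∉ Φ '' Strip L → V x = 0) → ∀ G, D.C1 G →
    ∫ x, inner ℝ (D.gr V x) (D.gr G x) ∂μ =
      ∫ z in Rec L (-π), (-(iteratedDeriv 2 η z.re) + (m + 1) ^ 2 * η z.re) *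
        Real.sin ((m + 1) * z.im) * G (Φ z)

/-! ### The Hilbert space -/

/-- the multiplication forms on `L²` -/
def StMul : Prop :=
  ∀ (M : Type) [MeasurableSpace M] (μ : Measure M) (w : M → ℝ), Measurable w →
    ∀ C : ℝ, (∀ x, |w x| ≤ C) → ∃ b : Lp ℝ 2 μ →L[ℝ] Lp ℝ 2 μ →L[ℝ] ℝ,
    ∀ f g, b f g = ∫ x, w x * (f x * g x) ∂μ

/-- the odd functions of the form domain: the closure of the pairs `(F, ∇F)` -/
def HS {M : Type} [TopologicalSpace M] [MeasurableSpace M] (D : Data M) (μ : Measure M)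
    (σ : M → M) : Submodule ℝ (WithLp 2 (Lp ℝ 2 μ × Lp ℂ 2 μ)) :=
  (Submodule.span ℝ {p | ∃ F : M → ℝ, D.C1 F ∧ (∀ x, F (σ x) = - F x) ∧
    (p.fst : M → ℝ) =ᵐ[μ] F ∧ (p.snd : M → ℂ) =ᵐ[μ] D.gr F}).topologicalClosure

/-- approximation by `C¹` functions in the form domain -/
def StDen : Prop :=
  ∀ (M : Type) [MetricSpace M] [CompactSpace M] [MeasurableSpace M] [BorelSpace M] (μ : Measure M)
    (D : Data M), D.IsSurf μ → ∀ (L : ℝ) (Φ : ℂ → M) (σ : M → M), D.IsCyl μ L Φ σ →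
    (∀ F, D.C1 F → (∀ x, F (σ x) = - F x) → ∃ v ∈ HS D μ σ,
      (v.fst : M → ℝ) =ᵐ[μ] F ∧ (v.snd : M → ℂ) =ᵐ[μ] D.gr F) ∧
    ∀ v ∈ HS D μ σ, (∀ᵐ x ∂μ, (v.fst : M → ℝ) (σ x) = - (v.fst : M → ℝ) x) ∧
      ∃ (F : ℕ → M → ℝ) (f : ℕ → WithLp 2 (Lp ℝ 2 μ × Lp ℂ 2 μ)),
        (∀ k, D.C1 (F k) ∧ (∀ x, F k (σ x) = - F k x) ∧ f k ∈ HS D μ σ ∧
          ((f k).fst : M → ℝ) =ᵐ[μ] F k ∧ ((f k).snd : M → ℂ) =ᵐ[μ] D.gr (F k)) ∧
        Tendsto f atTop (𝓝 v)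

/-- an odd eigenvector of the forms is an eigenfunction of the surface with the changed metric -/
def StEig : Prop :=
  ∀ (M : Type) [MetricSpace M] [CompactSpace M] [MeasurableSpace M] [BorelSpace M] (μ : Measure M)
    (D : Data M), D.IsSurf μ → ∀ (L : ℝ) (Φ : ℂ → M) (σ : M → M), D.IsCyl μ L Φ σ →
    ∀ w : M → ℝ, Continuous w → (∀ x, 0 < w x) → (∀ x, w (σ x) = w x) →
    ∀ (lam : ℝ), ∀ v ∈ HS D μ σ,
    (∀ v' ∈ HS D μ σ, inner ℝ v.snd v'.snd =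
      lam * ∫ x, w x * ((v.fst : M → ℝ) x * (v'.fst : M → ℝ) x) ∂μ) →
    (D.conf w).IsEig (wm μ w) lam (v.fst : M → ℝ)

/-! ### The abstract theorem -/

/-- everything which is needed of the surface: the form domain of the odd functions, the Dirichlet
form `a`, the inclusion `i` in `L²`, and the Fourier coefficients `p v m` on the cylinder -/
structure Cy {M : Type} [TopologicalSpace M] [MeasurableSpace M] (μ : Measure M) (h : M → ℝ) (L : ℝ)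
    {H : Type} [NormedAddCommGroup H] [InnerProductSpace ℝ H] (i : H →L[ℝ] Lp ℝ 2 μ)
    (a : H →L[ℝ] H →L[ℝ] ℝ) (p : H → ℕ → ℝ → ℝ) : Prop where
  sa : ∀ u v, a u v = a v u
  na : ∀ v, 0 ≤ a v v
  nm : ∀ v, ‖v‖ ^ 2 = a v v + ‖i v‖ ^ 2
  wy : ∃ C : ℝ, ∀ ε : ℝ, 0 < ε → ε ≤ 1 → ∃ (N : ℕ) (l : Fin N → H →L[ℝ] ℝ), (N : ℝ) ≤ C / ε ∧
    ∀ v, ‖i v‖ ^ 2 ≤ ε * a v v + ∑ j, (l j v) ^ 2
  mem : ∀ v m, MemLp (p v m) 2 (volume.restrict (Ioo 0 L))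
  bd : ∀ v, Summable (fun m => ∫ x in Ioo 0 L, (p v m x) ^ 2) ∧
    ∑' m, ∫ x in Ioo 0 L, (p v m x) ^ 2 ≤ ‖i v‖ ^ 2
  k1 : ∀ η, Tst L η → ∃ f : M → ℝ, Continuous f ∧ (∀ x, f x ≠ 0 → h x = 0) ∧
    (∫ x, f x ∂μ = 2 * π * ∫ x in Ioo 0 L, η x) ∧
    ∀ v, HasSum (fun m => ∫ x in Ioo 0 L, η x * (p v m x) ^ 2) (∫ x, f x * (i v x) ^ 2 ∂μ)
  k2 : ∀ η, Tst L η → ∃ e : ℕ → H,
    (∀ m m', inner ℝ (i (e m)) (i (e m')) = if m = m' then ∫ x in Ioo 0 L, (η x) ^ 2 else 0) ∧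
    (∀ m, ∀ᵐ x ∂μ, i (e m) x ≠ 0 → h x = 0) ∧
    ∀ m v, inner ℝ (i (e m)) (i v) = (∫ x in Ioo 0 L, η x * p v m x) ∧
      a (e m) v = ∫ x in Ioo 0 L, (-(iteratedDeriv 2 η x) + (m + 1) ^ 2 * η x) * p v m x

/-- a test function -/
def StBmp : Prop :=
  ∀ L : ℝ, 0 < L → ∃ χ : ℝ → ℝ, Tst L χ ∧ ∫ x in Ioo 0 L, χ x = 0 ∧ ∫ x in Ioo 0 L, (χ x) ^ 2 = 1

/-- the forms which belong to the metrics `exp (s h) g` -/
def StBs : Prop :=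
  ∀ (M : Type) [MetricSpace M] [CompactSpace M] [MeasurableSpace M] [BorelSpace M] (μ : Measure M)
    [IsFiniteMeasure μ] (h : M → ℝ) (L : ℝ) (H : Type) [NormedAddCommGroup H]
    [InnerProductSpace ℝ H] (i : H →L[ℝ] Lp ℝ 2 μ) (a : H →L[ℝ] H →L[ℝ] ℝ)
    (p : H → ℕ → ℝ → ℝ), 0 < L → Continuous h → (∀ x, 0 ≤ h x) → Cy μ h L i a p →
    ∃ (b k : ℝ → H →L[ℝ] H →L[ℝ] ℝ) (K : ℝ),
      (∀ s u v, b s u v = ∫ x, Real.exp (s * h x) * (i u x * i v x) ∂μ) ∧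
      (∀ s u v, k s u v = ∫ x, h x * Real.exp (s * h x) * (i u x * i v x) ∂μ) ∧
      (∀ s, Fm a (b s)) ∧ (∀ R : ℝ, ∃ C : ℝ, ∀ s, |s| ≤ R → Wy a (b s) C) ∧
      (∀ s u v, k s u v = k s v u) ∧ (∀ s v, 0 ≤ k s v v ∧ k s v v ≤ K * b s v v) ∧
      (∀ s t v, s ≤ t → b s v v ≤ b t v v) ∧
      (∀ s t v, s ≤ t → b t v v ≤ Real.exp (K * (t - s)) * b s v v) ∧
      ∀ s τ v, b s v v + τ * k s v v ≤ b (s + τ) v v

/-- eigenfunctions which are concentrated on one frequency are not equidistributed -/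
def StCyl : Prop :=
  ∀ (M : Type) [MetricSpace M] [CompactSpace M] [MeasurableSpace M] [BorelSpace M] (μ : Measure M)
    [IsFiniteMeasure μ] (h : M → ℝ) (L : ℝ) (H : Type) [NormedAddCommGroup H]
    [InnerProductSpace ℝ H] (i : H →L[ℝ] Lp ℝ 2 μ) (a : H →L[ℝ] H →L[ℝ] ℝ)
    (p : H → ℕ → ℝ → ℝ), 0 < L → Continuous h → (∀ x, 0 ≤ h x) → Cy μ h L i a p →
    ∀ (s r c : ℝ) (χ : ℝ → ℝ), 0 < c → Tst L χ → ∫ x in Ioo 0 L, χ x = 0 →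
    ∀ (u : ℕ → H) (lam : ℕ → ℝ) (m : ℕ → ℕ), Tendsto m atTop atTop →
    (∀ n, |lam n - ((m n : ℝ) + 1) ^ 2| ≤ r) →
    (∀ n, ∫ x, Real.exp (s * h x) * (i (u n) x) ^ 2 ∂μ = 1) →
    (∀ n v, a (u n) v = lam n * ∫ x, Real.exp (s * h x) * (i (u n) x * i v x) ∂μ) →
    (∀ n, c ≤ |∫ x in Ioo 0 L, χ x * p (u n) (m n) x|) →
    ¬ ∀ f : M → ℝ, Continuous f →
      Tendsto (fun j => ∫ x, f x * (Real.exp (s * h x) * (i (u j) x) ^ 2) ∂μ) atTop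
        (𝓝 ((∫ x, f x * Real.exp (s * h x) ∂μ) / ∫ x, Real.exp (s * h x) ∂μ))

/-- the abstract theorem -/
def StCore : Prop :=
  ∀ (M : Type) [MetricSpace M] [CompactSpace M] [MeasurableSpace M] [BorelSpace M] (μ : Measure M)
    [IsFiniteMeasure μ] (h : M → ℝ) (L : ℝ) (H : Type) [NormedAddCommGroup H]
    [InnerProductSpace ℝ H] [CompleteSpace H] (i : H →L[ℝ] Lp ℝ 2 μ) (a : H →L[ℝ] H →L[ℝ] ℝ)
    (p : H → ℕ → ℝ → ℝ), 0 < L → Continuous h → (∀ x, 0 ≤ h x) → 0 < ∫ x, h x ∂μ →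
    Cy μ h L i a p →
    ∀ᵐ s : ℝ, ∃ (u : ℕ → H) (lam : ℕ → ℝ), Tendsto lam atTop atTop ∧
      (∀ j, ∫ x, Real.exp (s * h x) * (i (u j) x) ^ 2 ∂μ = 1 ∧
        ∀ v, a (u j) v = lam j * ∫ x, Real.exp (s * h x) * (i (u j) x * i v x) ∂μ) ∧
      ¬ ∀ f : M → ℝ, Continuous f →
        Tendsto (fun j => ∫ x, f x * (Real.exp (s * h x) * (i (u j) x) ^ 2) ∂μ) atTop
          (𝓝 ((∫ x, f x * Real.exp (s * h x) ∂μ) / ∫ x, Real.exp (s * h x) ∂μ))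

/-- the surface satisfies the hypotheses of the abstract theorem -/
def StPack : Prop :=
  ∀ (M : Type) [MetricSpace M] [CompactSpace M] [MeasurableSpace M] [BorelSpace M] (μ : Measure M)
    (D : Data M), D.IsSurf μ → ∀ (L : ℝ) (Φ : ℂ → M) (σ : M → M), D.IsCyl μ L Φ σ →
    ∀ h : M → ℝ, Continuous h → (∀ z ∈ Strip L, h (Φ z) = 0) →
    ∃ (i : HS D μ σ →L[ℝ] Lp ℝ 2 μ) (a : HS D μ σ →L[ℝ] HS D μ σ →L[ℝ] ℝ)
      (p : HS D μ σ → ℕ → ℝ → ℝ), Cy μ h L i a p ∧ (∀ v, i v = v.1.fst) ∧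
      ∀ u v, a u v = inner ℝ u.1.snd v.1.snd

/-- the theorem -/
def StMain : Prop :=
  ∀ (M : Type) [MetricSpace M] [CompactSpace M] [MeasurableSpace M] [BorelSpace M] (μ : Measure M)
    (D : Data M), D.IsSurf μ → ∀ (L : ℝ) (Φ : ℂ → M) (σ : M → M), D.IsCyl μ L Φ σ →
    ∀ h : M → ℝ, Continuous h → (∀ x, 0 ≤ h x) → (∀ x, h (σ x) = h x) →
    (∀ z ∈ Strip L, h (Φ z) = 0) → (∃ x, h x ≠ 0) →
    ∀ᵐ s : ℝ, (D.conf fun x => Real.exp (s * h x)).IsSurf (wm μ fun x => Real.exp (s * h x)) ∧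
      ∃ (u : ℕ → M → ℝ) (lam : ℕ → ℝ), Tendsto lam atTop atTop ∧
        (∀ j, (D.conf fun x => Real.exp (s * h x)).IsEig (wm μ fun x => Real.exp (s * h x))
          (lam j) (u j) ∧ ∫ x, (u j x) ^ 2 ∂(wm μ fun x => Real.exp (s * h x)) = 1) ∧
        ¬ Equi (wm μ fun x => Real.exp (s * h x)) u

end Pool.Agent.Y262.QE
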