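import Mathlib

/-!
# Project QE: definitions

Closed Riemannian surfaces in charts, the Dirichlet integral, weak eigenfunctions of the Laplacian,
equidistribution in the surface, conformal changes of the metric, and flat cylinders with a
reflection.
-/

set_option autoImplicit false

open Set Filter Topology MeasureTheory
open scoped Real ContDiff ComplexConjugate

noncomputable section

namespace Pool.Agent.Y262.QE

/-- Data of a Riemannian surface in charts: finitely many charts `φ i : U i → T i` onto subsets of the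
plane (written as `ℂ`) with inverses `ψ i`, and in each chart an orthonormal coframe `A i z`: the
metric is `v ↦ ‖A i z v‖ ^ 2`, its area density is `|det (A i z)|`. -/
structure Data (M : Type) where
  N : ℕ
  U : Fin N → Set M
  φ : Fin N → M → ℂ
  ψ : Fin N → ℂ → M
  A : Fin N → ℂ → ℂ →L[ℝ] ℂ

/-- the vector with the coordinates `P (A⁻¹ e₁)`, `P (A⁻¹ e₂)`: the gradient which belongs to the
covector `P`, in the orthonormal frame which is dual to the coframe `A` -/
def grd (A : ℂ →L[ℝ] ℂ) (P : ℂ →L[ℝ] ℝ) : ℂ := ⟨P (A.inverse 1), P (A.inverse Complex.I)⟩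

section

variable {M : Type}

/-- the image of a chart -/
def Data.T (D : Data M) (i : Fin D.N) : Set ℂ := D.φ i '' D.U i

/-- disjoint pieces of the charts -/
def Data.pc (D : Data M) (i : Fin D.N) : Set M := D.U i \ ⋃ k : {k // k < i}, D.U k.1

/-- the derivative of `F` at `x` in the chart `i` -/
def Data.dc (D : Data M) (i : Fin D.N) (F : M → ℝ) (x : M) : ℂ →L[ℝ] ℝ :=
  fderiv ℝ (fun z => F (D.ψ i z)) (D.φ i x)

/-- the gradient of `F` at `x` in the orthonormal frame of the chart `i` -/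
def Data.gc (D : Data M) (i : Fin D.N) (F : M → ℝ) (x : M) : ℂ :=
  grd (D.A i (D.φ i x)) (D.dc i F x)

/-- the gradient of `F` at `x`, in the orthonormal frame of the first chart which contains `x` -/
def Data.gr (D : Data M) (F : M → ℝ) (x : M) : ℂ :=
  ∑ i, (D.pc i).indicator (D.gc i F) x

/-- continuously differentiable functions on the surface -/
def Data.C1 (D : Data M) (F : M → ℝ) : Prop :=
  ∀ i, ContDiffOn ℝ 1 (fun z => F (D.ψ i z)) (D.T i)

/-- the data `D` define a Riemannian surface with a continuous metric on `M`, and `μ` is its area -/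
structure Data.IsSurf [TopologicalSpace M] [MeasurableSpace M] (D : Data M) (μ : Measure M) :
    Prop where
  openU : ∀ i, IsOpen (D.U i)
  cover : ∀ x, ∃ i, x ∈ D.U i
  left : ∀ i, ∀ x ∈ D.U i, D.ψ i (D.φ i x) = x
  contφ : ∀ i, ContinuousOn (D.φ i) (D.U i)
  openT : ∀ i, IsOpen (D.T i)
  contψ : ∀ i, ContinuousOn (D.ψ i) (D.T i)
  det : ∀ i, ∀ z ∈ D.T i, (D.A i z).det ≠ 0
  contA : ∀ i, ContinuousOn (D.A i) (D.T i)
  tr : ∀ i j, ∀ x ∈ D.U i, x ∈ D.U j →
    ContDiffAt ℝ 1 (fun z => D.φ j (D.ψ i z)) (D.φ i x) ∧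
      ∀ v, ‖D.A j (D.φ j x) (fderiv ℝ (fun z => D.φ j (D.ψ i z)) (D.φ i x) v)‖ =
        ‖D.A i (D.φ i x) v‖
  area : ∀ i, ∀ B : Set M, B ⊆ D.U i → MeasurableSet B →
    μ B = ∫⁻ z in D.φ i '' B, ENNReal.ofReal |(D.A i z).det|

/-- `u` is an eigenfunction of the Laplacian of the surface with the eigenvalue `lam`, in the weak
sense: `u` is the limit in `L²` of a sequence of `C¹` functions `F k` whose gradients form a Cauchy
sequence in `L²`, and `∫ ⟨∇u, ∇G⟩ = lam ∫ u G` for all `C¹` functions `G`, where `∇u` is the limit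
of the gradients of the `F k`. -/
structure Data.IsEig [MeasurableSpace M] (D : Data M) (μ : Measure M) (lam : ℝ) (u : M → ℝ) :
    Prop where
  mem : MemLp u 2 μ
  ex : ∃ F : ℕ → M → ℝ, (∀ k, D.C1 (F k)) ∧
    Tendsto (fun k => ∫ x, (F k x - u x) ^ 2 ∂μ) atTop (𝓝 0) ∧
    Tendsto (fun p : ℕ × ℕ => ∫ x, ‖D.gr (F p.1) x - D.gr (F p.2) x‖ ^ 2 ∂μ) atTop (𝓝 0) ∧
    ∀ G : M → ℝ, D.C1 G →
      Tendsto (fun k => ∫ x, inner ℝ (D.gr (F k) x) (D.gr G x) ∂μ) atTop
        (𝓝 (lam * ∫ x, u x * G x ∂μ))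

/-- the measures `u j ^ 2 dμ` converge weakly to the uniform measure `dμ / μ (M)` -/
def Equi [TopologicalSpace M] [MeasurableSpace M] (μ : Measure M) (u : ℕ → M → ℝ) : Prop :=
  ∀ f : M → ℝ, Continuous f →
    Tendsto (fun j => ∫ x, f x * (u j x) ^ 2 ∂μ) atTop (𝓝 ((∫ x, f x ∂μ) / μ.real univ))

/-- the conformal change of the metric: the metric is multiplied by the function `w` -/
def Data.conf (D : Data M) (w : M → ℝ) : Data M where
  N := D.N
  U := D.U
  φ := D.φ
  ψ := D.ψ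
  A := fun i z => Real.sqrt (w (D.ψ i z)) • D.A i z

/-- the area of the metric which is multiplied by `w` -/
def wm [MeasurableSpace M] (μ : Measure M) (w : M → ℝ) : Measure M :=
  μ.withDensity fun x => ENNReal.ofReal (w x)

/-- the strip `0 < Re z < L` -/
def Strip (L : ℝ) : Set ℂ := {z | 0 < z.re ∧ z.re < L}

/-- the rectangle `0 < Re z < L`, `b < Im z < b + 2π` -/
def Rec (L b : ℝ) : Set ℂ := {z | (0 < z.re ∧ z.re < L) ∧ (b < z.im ∧ z.im < b + 2 * π)}

/-- The map `Φ` parametrizes a flat cylinder of length `L` and circumference `2π` in the surface, and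
`σ` is an isometric involution of the surface which is the reflection `z ↦ conj z` on the cylinder. -/
structure Data.IsCyl [TopologicalSpace M] [MeasurableSpace M] (D : Data M) (μ : Measure M) (L : ℝ)
    (Φ : ℂ → M) (σ : M → M) : Prop where
  pos : 0 < L
  per : ∀ z, Φ (z + 2 * π * Complex.I) = Φ z
  inj : ∀ z ∈ Strip L, ∀ z' ∈ Strip L, Φ z = Φ z' → ∃ k : ℤ, z' = z + k * (2 * π * Complex.I)
  chart : ∀ b : ℝ, b = -π ∨ b = 0 → ∃ i, D.T i = Rec L b ∧
    ∀ z ∈ Rec L b, D.ψ i z = Φ z ∧ D.A i z = ContinuousLinearMap.id ℝ ℂ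
  inv : ∀ x, σ (σ x) = x
  cont : Continuous σ
  refl : ∀ z ∈ Strip L, σ (Φ z) = Φ (conj z)
  mp : MeasurePreserving σ μ μ
  iso : ∀ i j, ∀ x ∈ D.U i, σ x ∈ D.U j →
    ContDiffAt ℝ 1 (fun z => D.φ j (σ (D.ψ i z))) (D.φ i x) ∧
      ∀ v, ‖D.A j (D.φ j (σ x)) (fderiv ℝ (fun z => D.φ j (σ (D.ψ i z))) (D.φ i x) v)‖ =
        ‖D.A i (D.φ i x) v‖

end

end Pool.Agent.Y262.QE
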