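import Pool.Agent.Y262.QE.Port

/-!
# Project QE: the theorem
-/

set_option autoImplicit false

open Set Filter Topology MeasureTheory
open scoped Real ContDiff ENNReal

noncomputable section

namespace Pool.Agent.Y262.QE

theorem integral_wm {M : Type} [MeasurableSpace M] (μ : Measure M) (w : M → ℝ) (hw : Measurable w)
    (h0 : ∀ x, 0 ≤ w x) (g : M → ℝ) : ∫ x, g x ∂(wm μ w) = ∫ x, w x * g x ∂μ := by
  have h9 : wm μ w = μ.withDensity fun x => ((Real.toNNReal (w x) : NNReal) : ENNReal) := rfl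
  rw [h9, integral_withDensity_eq_integral_smul hw.real_toNNReal]
  refine integral_congr_ae (Eventually.of_forall fun x => ?_)
  simp only [NNReal.smul_def, Real.coe_toNNReal _ (h0 x), smul_eq_mul]

theorem main (hFin : StFin) (hConf : StConf) (hEig : StEig) (hCore : StCore) (hPack : StPack)
    (M : Type) [MetricSpace M] [CompactSpace M] [MeasurableSpace M] [BorelSpace M] (μ : Measure M)
    (D : Data M) (hD : D.IsSurf μ) (L : ℝ) (Φ : ℂ → M) (σ : M → M) (hc : D.IsCyl μ L Φ σ)
    (h : M → ℝ) (hh : Continuous h) (h0 : ∀ x, 0 ≤ h x) (hσ : ∀ x, h (σ x) = h x)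
    (hz : ∀ z ∈ Strip L, h (Φ z) = 0) (hne : ∃ x, h x ≠ 0) :
    ∀ᵐ s : ℝ, (D.conf fun x => Real.exp (s * h x)).IsSurf (wm μ fun x => Real.exp (s * h x)) ∧
      ∃ (u : ℕ → M → ℝ) (lam : ℕ → ℝ), Tendsto lam atTop atTop ∧
        (∀ j, (D.conf fun x => Real.exp (s * h x)).IsEig (wm μ fun x => Real.exp (s * h x))
          (lam j) (u j) ∧ ∫ x, (u j x) ^ 2 ∂(wm μ fun x => Real.exp (s * h x)) = 1) ∧
        ∃ O : Set M, IsOpen O ∧ (wm μ fun x => Real.exp (s * h x)) (frontier O) = 0 ∧
          ¬ Tendsto (fun j => ∫ x in O, (u j x) ^ 2 ∂(wm μ fun x => Real.exp (s * h x))) atTop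
            (𝓝 ((wm μ fun x => Real.exp (s * h x)).real O /
              (wm μ fun x => Real.exp (s * h x)).real univ)) := by
  obtain ⟨hfin, hpos⟩ := hFin M μ D hD
  haveI := hfin
  obtain ⟨i, a, p, hCy, hi, ha⟩ := hPack M μ D hD L Φ σ hc h hh hz
  have hint0 : 0 < ∫ x, h x ∂μ := by
    have hint : Integrable h μ := hh.integrable_of_hasCompactSupport (HasCompactSupport.of_compactSpace h)
    rw [integral_pos_iff_support_of_nonneg h0 hint]
    exact hpos _ hh.isOpen_support (by obtain ⟨x, hx⟩ := hne; exact ⟨x, hx⟩)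
  have hcs : CompleteSpace (HS D μ σ) :=
    (Submodule.isClosed_topologicalClosure _).completeSpace_coe
  have hA := hCore M μ h L (HS D μ σ) i a p hc.pos hh h0 hint0 hCy
  filter_upwards [hA] with s hs
  obtain ⟨v, lam, hlam, hv, hnot⟩ := hs
  set w : M → ℝ := fun x => Real.exp (s * h x) with hw
  have hwc : Continuous w := Real.continuous_exp.comp (continuous_const.mul hh)
  have hwp : ∀ x, 0 < w x := fun x => Real.exp_pos _
  have hwσ : ∀ x, w (σ x) = w x := fun x => by simp only [hw, hσ]
  have hS := (hConf M μ D hD w hwc hwp).1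
  obtain ⟨hfin', hpos'⟩ := hFin M (wm μ w) (D.conf w) hS
  haveI := hfin'
  refine ⟨hS, fun j => ((v j).1.fst : M → ℝ), lam, hlam, ?_, ?_⟩
  · intro j
    refine ⟨?_, ?_⟩
    · refine hEig M μ D hD L Φ σ hc w hwc hwp hwσ (lam j) (v j).1 (v j).2 fun v' hv' => ?_
      have h2 := (hv j).2 ⟨v', hv'⟩
      rw [ha, hi, hi] at h2
      exact h2
    · rw [integral_wm μ w hwc.measurable (fun x => (hwp x).le)]
      have h2 := (hv j).1
      rw [hi] at h2
      exact h2
  · by_contra hcon
    push Not at hcon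
    apply hnot
    have hE : ∀ j, (D.conf w).IsEig (wm μ w) (lam j) ((v j).1.fst : M → ℝ) := by
      intro j
      refine hEig M μ D hD L Φ σ hc w hwc hwp hwσ (lam j) (v j).1 (v j).2 fun v' hv' => ?_
      have h2 := (hv j).2 ⟨v', hv'⟩
      rw [ha, hi, hi] at h2
      exact h2
    have hM : Nonempty M := by obtain ⟨x, _⟩ := hne; exact ⟨x⟩
    have hEq : Equi (wm μ w) (fun j => ((v j).1.fst : M → ℝ)) := by
      refine port (wm μ w) ?_ _ (fun j => (hE j).mem) ?_ hcon
      · exact (hpos' univ isOpen_univ univ_nonempty).ne'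
      · intro j
        rw [integral_wm μ w hwc.measurable (fun x => (hwp x).le)]
        have h2 := (hv j).1
        rw [hi] at h2
        exact h2
    intro f hf
    have h3 := hEq f hf
    have h4 : (∫ x, f x ∂(wm μ w)) / (wm μ w).real univ =
        (∫ x, f x * Real.exp (s * h x) ∂μ) / ∫ x, Real.exp (s * h x) ∂μ := by
      have h5 : (wm μ w).real univ = ∫ x, (1 : ℝ) ∂(wm μ w) := by simp
      rw [h5, integral_wm μ w hwc.measurable (fun x => (hwp x).le),
        integral_wm μ w hwc.measurable (fun x => (hwp x).le)]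
      simp only [mul_one, hw]
      congr 1
      exact integral_congr_ae (Eventually.of_forall fun x => mul_comm _ _)
    rw [h4] at h3
    refine h3.congr fun j => ?_
    rw [integral_wm μ w hwc.measurable (fun x => (hwp x).le)]
    refine integral_congr_ae (Eventually.of_forall fun x => ?_)
    simp only [hi, hw]
    ring

end Pool.Agent.Y262.QE
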