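import Pool.Agent.Y262.QE.Stm

/-!
# Project QE: convergence on open sets with null boundary implies weak convergence
-/

set_option autoImplicit false

open Set Filter Topology MeasureTheory
open scoped Real ContDiff ENNReal

noncomputable section

namespace Pool.Agent.Y262.QE

theorem port {M : Type} [MetricSpace M] [CompactSpace M] [MeasurableSpace M] [BorelSpace M]
    (ν : Measure M) [IsFiniteMeasure ν] (hν : ν univ ≠ 0) (u : ℕ → M → ℝ)
    (hu : ∀ j, MemLp (u j) 2 ν) (h1 : ∀ j, ∫ x, (u j x) ^ 2 ∂ν = 1)
    (h : ∀ O : Set M, IsOpen O → ν (frontier O) = 0 →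
      Tendsto (fun j => ∫ x in O, (u j x) ^ 2 ∂ν) atTop (𝓝 (ν.real O / ν.real univ))) :
    Equi ν u := by
  have hint : ∀ j, Integrable (fun x => (u j x) ^ 2) ν := fun j => (hu j).integrable_sq
  -- the measures
  let P : ℕ → Measure M := fun j => ν.withDensity fun x => ENNReal.ofReal ((u j x) ^ 2)
  have hPs : ∀ j (s : Set M), MeasurableSet s → P j s = ENNReal.ofReal (∫ x in s, (u j x) ^ 2 ∂ν) := by
    intro j s hs
    rw [ofReal_integral_eq_lintegral_ofReal (hint j).integrableOn
      (Eventually.of_forall fun x => sq_nonneg _)]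
    exact withDensity_apply _ hs
  have hP1 : ∀ j, P j univ = 1 := by
    intro j
    rw [hPs j univ MeasurableSet.univ]
    simp [h1]
  haveI : ∀ j, IsProbabilityMeasure (P j) := fun j => ⟨hP1 j⟩
  let Q : Measure M := (ν univ)⁻¹ • ν
  have hQ1 : Q univ = 1 := by
    simp only [Q, Measure.smul_apply, smul_eq_mul]
    exact ENNReal.inv_mul_cancel hν (measure_ne_top _ _)
  haveI : IsProbabilityMeasure Q := ⟨hQ1⟩
  have hac : ∀ j s, ν s = 0 → P j s = 0 := fun j s hs =>
    withDensity_absolutelyContinuous ν _ hs
  have hQ0 : ∀ s, Q s = 0 → ν s = 0 := by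
    intro s hs
    simp only [Q, Measure.smul_apply, smul_eq_mul] at hs
    rcases mul_eq_zero.1 hs with h0 | h0
    · exact absurd h0 (ENNReal.inv_ne_zero.2 (measure_ne_top _ _))
    · exact h0
  have hr0 : ν.real univ ≠ 0 := by
    rw [Measure.real, ENNReal.toReal_ne_zero]
    exact ⟨hν, measure_ne_top _ _⟩
  have hopen : ∀ O : Set M, IsOpen O → ν (frontier O) = 0 →
      Tendsto (fun j => P j O) atTop (𝓝 (Q O)) := by
    intro O hO h0
    have h2 := (ENNReal.continuous_ofReal.tendsto _).comp (h O hO h0)
    have h3 : ENNReal.ofReal (ν.real O / ν.real univ) = Q O := by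
      simp only [Q, Measure.smul_apply, smul_eq_mul]
      rw [ENNReal.ofReal_div_of_pos (lt_of_le_of_ne measureReal_nonneg hr0.symm)]
      rw [Measure.real, Measure.real, ENNReal.ofReal_toReal (measure_ne_top _ _),
        ENNReal.ofReal_toReal (measure_ne_top _ _), div_eq_mul_inv, mul_comm]
    rw [h3] at h2
    refine h2.congr fun j => ?_
    simp only [Function.comp]
    rw [hPs j O hO.measurableSet]
  have hall : ∀ {E : Set M}, MeasurableSet E → Q (frontier E) = 0 →
      Tendsto (fun j => P j E) atTop (𝓝 (Q E)) := by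
    intro E _ h0
    have h0' := hQ0 _ h0
    have h2 : ν (frontier (interior E)) = 0 :=
      measure_mono_null (frontier_interior_subset) h0'
    have h3 : ν (E \ interior E) = 0 := by
      refine measure_mono_null ?_ h0'
      intro x hx
      exact ⟨subset_closure hx.1, hx.2⟩
    have h4 : ∀ ρ : Measure M, ρ (E \ interior E) = 0 → ρ E = ρ (interior E) := by
      intro ρ hρ
      refine le_antisymm ?_ (measure_mono interior_subset)
      calc ρ E ≤ ρ (interior E ∪ (E \ interior E)) := by
            refine measure_mono ?_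
            rw [union_diff_self]
            exact subset_union_right
        _ ≤ ρ (interior E) + ρ (E \ interior E) := measure_union_le _ _
        _ = ρ (interior E) := by rw [hρ, add_zero]
    have h5 : Q (E \ interior E) = 0 := by
      simp only [Q, Measure.smul_apply, smul_eq_mul, h3, mul_zero]
    rw [h4 Q h5]
    refine (hopen _ isOpen_interior h2).congr fun j => ?_
    rw [h4 (P j) (hac j _ h3)]
  let PP : ℕ → ProbabilityMeasure M := fun j => ⟨P j, inferInstance⟩
  let QQ : ProbabilityMeasure M := ⟨Q, inferInstance⟩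
  have hconv : Tendsto PP atTop (𝓝 QQ) :=
    tendsto_of_forall_isOpen_le_liminf_nat' (fun O hO =>
      le_liminf_measure_open_of_forall_tendsto_measure (μ := Q) (μs := P) hall O hO)
  intro f hf
  have h6 := (ProbabilityMeasure.tendsto_iff_forall_integral_tendsto.1 hconv)
    (BoundedContinuousFunction.mkOfCompact ⟨f, hf⟩)
  have h7 : ∫ x, f x ∂Q = (∫ x, f x ∂ν) / ν.real univ := by
    simp only [Q]
    rw [integral_smul_measure]
    rw [ENNReal.toReal_inv, smul_eq_mul, div_eq_mul_inv, mul_comm]
    rfl
  have h8 : ∀ j, ∫ x, f x ∂(P j) = ∫ x, f x * (u j x) ^ 2 ∂ν := by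
    intro j
    have hm : AEMeasurable (fun x => (Real.toNNReal ((u j x) ^ 2))) ν :=
      (((hu j).aestronglyMeasurable.aemeasurable.pow_const 2)).real_toNNReal
    have h9 : P j = ν.withDensity fun x => ((Real.toNNReal ((u j x) ^ 2) : NNReal) : ENNReal) := rfl
    rw [h9, integral_withDensity_eq_integral_smul₀ hm]
    refine integral_congr_ae (Eventually.of_forall fun x => ?_)
    simp only [NNReal.smul_def, Real.coe_toNNReal _ (sq_nonneg (u j x)), smul_eq_mul]
    ring
  rw [← h7]
  refine h6.congr fun j => ?_
  exact h8 j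

end Pool.Agent.Y262.QE
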